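import Mathlib

/-!
# Binary codes with many disjoint hitting sets and no thin hitting set

Take the complete `d`-ary tree of depth `K`.  The coordinates are the non-root vertices of the tree
and `d` private coordinates for every leaf.  The code is spanned by the words `s_v` (the set of
children of the inner vertex `v`) and, for every leaf `ℓ`, the word consisting of the path from the
root to `ℓ` (without the root) and of the private coordinates of `ℓ`.  The `d` colours give `d`
disjoint hitting sets, but every hitting set contains a child of every inner vertex, hence a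
complete path, that is, `K` of the `K + d` elements of some codeword.
-/

namespace Pool.Agent.Results.MP_d2d48a_co.NoThinSet

/-- The Hamming weight. -/
def wt {n : ℕ} (c : Fin n → ZMod 2) : ℕ := (Finset.univ.filter fun i => c i ≠ 0).card

/-- The weight of the projection of `c` onto the coordinates in `S`. -/
def wtOn {n : ℕ} (S : Finset (Fin n)) (c : Fin n → ZMod 2) : ℕ := (S.filter fun i => c i ≠ 0).card

/-- `S` is a hitting set of the code `C`. -/
def IsHitting {n : ℕ} (C : Submodule (ZMod 2) (Fin n → ZMod 2)) (S : Finset (Fin n)) : Prop :=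
  ∀ c ∈ C, c ≠ 0 → ∃ i ∈ S, c i ≠ 0

section construction

variable (d K : ℕ)

/-- Inner vertices of the tree: words of length `< K` over `Fin d`. -/
abbrev V : Type := Σ j : Fin K, (Fin j.val → Fin d)

/-- Leaves. -/
abbrev Leaf : Type := Fin K → Fin d

/-- Coordinates: pairs (inner vertex, label of a child), and the private coordinates of leaves. -/
abbrev X : Type := (V d K × Fin d) ⊕ (Leaf d K × Fin d)

variable {d K}

/-- The inner vertex at level `j` on the path to `ℓ`. -/
def pre (l : Leaf d K) (j : Fin K) : V d K := ⟨j, fun i => l ⟨i.val, i.2.trans j.2⟩⟩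

/-- The child `(v, i)` is on the path from the root to `ℓ`. -/
def OnPath (l : Leaf d K) (p : V d K × Fin d) : Prop := p.1 = pre l p.1.1 ∧ p.2 = l p.1.1

open Classical in
/-- The encoding map. -/
noncomputable def enc : ((V d K → ZMod 2) × (Leaf d K → ZMod 2)) →ₗ[ZMod 2] (X d K → ZMod 2) where
  toFun ab := Sum.elim (fun p => ab.1 p.1 + ∑ l, if OnPath l p then ab.2 l else 0)
    (fun q => ab.2 q.1)
  map_add' x y := by
    funext z
    rcases z with p | q
    · simp only [Sum.elim_inl, Prod.fst_add, Prod.snd_add, Pi.add_apply]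
      have : ∀ l, (if OnPath l p then x.2 l + y.2 l else 0) =
          (if OnPath l p then x.2 l else 0) + (if OnPath l p then y.2 l else 0) := by
        intro l; split_ifs <;> simp
      simp only [this, Finset.sum_add_distrib]
      ring
    · simp
  map_smul' r x := by
    funext z
    rcases z with p | q
    · simp only [Sum.elim_inl, Prod.smul_fst, Prod.smul_snd, Pi.smul_apply, smul_eq_mul,
        RingHom.id_apply, mul_add, Finset.mul_sum, mul_ite, mul_zero]
    · simp

theorem enc_inl (ab : (V d K → ZMod 2) × (Leaf d K → ZMod 2)) (p : V d K × Fin d) :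
    enc ab (Sum.inl p) = ab.1 p.1 + ∑ l, open Classical in if OnPath l p then ab.2 l else 0 := rfl

theorem enc_inr (ab : (V d K → ZMod 2) × (Leaf d K → ZMod 2)) (q : Leaf d K × Fin d) :
    enc ab (Sum.inr q) = ab.2 q.1 := rfl

/-- Every choice of a child for each inner vertex contains a complete path. -/
theorem exists_path (σ : V d K → Fin d) (hd : 0 < d) : ∃ l : Leaf d K, ∀ j, l j = σ (pre l j) := by
  let f : ℕ → Fin d := fun n => Nat.strongRecOn n fun j ih =>
    if h : j < K then σ ⟨⟨j, h⟩, fun i => ih i.val i.2⟩ else ⟨0, hd⟩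
  have hf : ∀ n, f n = if h : n < K then σ ⟨⟨n, h⟩, fun i => f i.val⟩ else ⟨0, hd⟩ := by
    intro n
    simp only [f]
    rw [Nat.strongRecOn_eq]
  refine ⟨fun j => f j.val, fun j => ?_⟩
  change f j.val = _
  rw [hf, dif_pos j.2]
  rfl

end construction

theorem main (α : ℝ) (hα : 0 < α) (d : ℕ) (hd : 1 ≤ d) :
    ∃ n : ℕ, 1 ≤ n ∧ ∃ C : Submodule (ZMod 2) (Fin n → ZMod 2),
      (∃ S : Fin d → Finset (Fin n), (∀ i j, i ≠ j → Disjoint (S i) (S j)) ∧
        ∀ i, IsHitting C (S i)) ∧
      ¬ ∃ S : Finset (Fin n), ∀ c ∈ C, c ≠ 0 →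
        α * (wt c : ℝ) ≤ (wtOn S c : ℝ) ∧ wtOn S c < wt c := by
  classical
  obtain ⟨K, hK⟩ := exists_nat_gt ((d : ℝ) / α)
  have hK' : (d : ℝ) < α * K := by
    rw [div_lt_iff₀ hα] at hK; linarith
  have hK0 : 0 < K := by
    rcases Nat.eq_zero_or_pos K with h | h
    · subst h; have : (0 : ℝ) ≤ d := Nat.cast_nonneg d; norm_num at hK'; linarith
    · exact h
  set n := Fintype.card (X d K) with hn
  let e : X d K ≃ Fin n := Fintype.equivFin _
  let Φ : ((V d K → ZMod 2) × (Leaf d K → ZMod 2)) →ₗ[ZMod 2] (Fin n → ZMod 2) :=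
    (LinearMap.funLeft (ZMod 2) (ZMod 2) e.symm).comp enc
  have hΦ : ∀ ab x, Φ ab (e x) = enc ab x := by
    intro ab x
    change enc ab (e.symm (e x)) = _
    rw [Equiv.symm_apply_apply]
  have hdpos : 0 < d := hd
  refine ⟨n, ?_, LinearMap.range Φ, ⟨fun i => Finset.univ.filter fun m =>
    (∃ v, m = e (Sum.inl (v, i))) ∨ ∃ l, m = e (Sum.inr (l, i)), ?_, ?_⟩, ?_⟩
  · rw [hn, Nat.one_le_iff_ne_zero, Ne, Fintype.card_eq_zero_iff, not_isEmpty_iff]
    exact ⟨Sum.inr (fun _ => ⟨0, hdpos⟩, ⟨0, hdpos⟩)⟩
  · intro i j hij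
    rw [Finset.disjoint_left]
    intro m hm hm'
    rw [Finset.mem_filter] at hm hm'
    rcases hm.2 with ⟨v, rfl⟩ | ⟨l, rfl⟩ <;> rcases hm'.2 with ⟨v', h⟩ | ⟨l', h⟩ <;>
      · have := e.injective h
        simp at this
        try exact hij this.2
  · rintro i c ⟨ab, rfl⟩ hc
    by_cases hb : ∃ l, ab.2 l ≠ 0
    · obtain ⟨l, hl⟩ := hb
      refine ⟨e (Sum.inr (l, i)), ?_, ?_⟩
      · rw [Finset.mem_filter]; exact ⟨Finset.mem_univ _, Or.inr ⟨l, rfl⟩⟩
      · rw [hΦ, enc_inr]; exact hl
    · push Not at hb
      have ha : ∃ v, ab.1 v ≠ 0 := by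
        by_contra h
        push Not at h
        apply hc
        have : ab = 0 := Prod.ext (funext h) (funext hb)
        rw [this, map_zero]
      obtain ⟨v, hv⟩ := ha
      refine ⟨e (Sum.inl (v, i)), ?_, ?_⟩
      · rw [Finset.mem_filter]; exact ⟨Finset.mem_univ _, Or.inl ⟨v, rfl⟩⟩
      · rw [hΦ, enc_inl]
        simp only [hb, ite_self, Finset.sum_const_zero, add_zero]
        exact hv
  · rintro ⟨S, hS⟩
    -- every inner vertex has a child outside `S`
    have h1 : ∀ v : V d K, ∃ i : Fin d, e (Sum.inl (v, i)) ∉ S := by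
      intro v
      by_contra hcon
      push Not at hcon
      set c := Φ (Pi.single v 1, 0) with hc
      have hcv : ∀ p : V d K × Fin d, c (e (Sum.inl p)) = if p.1 = v then 1 else 0 := by
        intro p
        rw [hc, hΦ, enc_inl]
        simp only [Pi.zero_apply, ite_self, Finset.sum_const_zero, add_zero, Pi.single_apply]
      have hcr : ∀ q : Leaf d K × Fin d, c (e (Sum.inr q)) = 0 := by
        intro q
        rw [hc, hΦ, enc_inr]; rfl
      have hc0 : c ≠ 0 := by
        intro h
        have := hcv (v, ⟨0, hdpos⟩)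
        rw [h] at this
        simp at this
      have h2 := (hS c ⟨_, rfl⟩ hc0).2
      have h3 : wtOn S c = wt c := by
        unfold wtOn wt
        congr 1
        ext m
        rw [Finset.mem_filter, Finset.mem_filter]
        refine ⟨fun h => ⟨Finset.mem_univ _, h.2⟩, fun h => ⟨?_, h.2⟩⟩
        obtain ⟨x, rfl⟩ := e.surjective m
        rcases x with p | q
        · have h4 := h.2
          rw [hcv] at h4
          have h5 : p.1 = v := by
            by_contra h6; rw [if_neg h6] at h4; exact h4 rfl
          have h6 : p = (v, p.2) := by rw [← h5]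
          rw [h6]; exact hcon p.2
        · exact absurd (hcr q) h.2
      omega
    choose σ hσ using h1
    obtain ⟨l, hl⟩ := exists_path σ hdpos
    set c := Φ (0, Pi.single l 1) with hc
    have hcv : ∀ p : V d K × Fin d, c (e (Sum.inl p)) = if OnPath l p then 1 else 0 := by
      intro p
      rw [hc, hΦ, enc_inl]
      simp only [Pi.zero_apply, zero_add, Pi.single_apply]
      rw [Finset.sum_eq_single l]
      · simp
      · intro l' _ hl'
        rw [if_neg hl', ite_self]
      · intro h; exact absurd (Finset.mem_univ _) h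
    have hcr : ∀ q : Leaf d K × Fin d, c (e (Sum.inr q)) = if q.1 = l then 1 else 0 := by
      intro q
      rw [hc, hΦ, enc_inr]; simp only [Pi.single_apply]
    have hc0 : c ≠ 0 := by
      intro h
      have := hcr (l, ⟨0, hdpos⟩)
      rw [h] at this
      simp at this
    have h2 := (hS c ⟨_, rfl⟩ hc0).1
    have h3 : K ≤ wt c := by
      have hinj : Function.Injective (fun j : Fin K => e (Sum.inl (pre l j, l j))) := by
        intro j j' h
        have h4 := e.injective h
        rw [Sum.inl.injEq, Prod.mk.injEq] at h4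
        exact (congrArg Sigma.fst h4.1 :)
      have h4 : (Finset.univ.image fun j : Fin K => e (Sum.inl (pre l j, l j))).card = K := by
        rw [Finset.card_image_of_injective _ hinj, Finset.card_univ, Fintype.card_fin]
      rw [← h4]
      apply Finset.card_le_card
      intro m hm
      rw [Finset.mem_image] at hm
      obtain ⟨j, -, rfl⟩ := hm
      rw [Finset.mem_filter, hcv, if_pos (show OnPath l (pre l j, l j) from ⟨rfl, rfl⟩)]
      exact ⟨Finset.mem_univ _, one_ne_zero⟩
    have h4 : wtOn S c ≤ d := by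
      have h5 : (S.filter fun i => c i ≠ 0) ⊆
          Finset.univ.image (fun i : Fin d => e (Sum.inr (l, i))) := by
        intro m hm
        rw [Finset.mem_filter] at hm
        obtain ⟨x, rfl⟩ := e.surjective m
        rcases x with p | q
        · exfalso
          have h6 := hm.2
          rw [hcv] at h6
          have h7 : OnPath l p := by
            by_contra h8; rw [if_neg h8] at h6; exact h6 rfl
          have h8 : p = (pre l p.1.1, σ (pre l p.1.1)) := by
            rw [← hl]
            exact Prod.ext h7.1 h7.2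
          rw [h8] at hm
          exact hσ _ hm.1
        · have h6 := hm.2
          rw [hcr] at h6
          have h7 : q.1 = l := by
            by_contra h8; rw [if_neg h8] at h6; exact h6 rfl
          rw [Finset.mem_image]
          exact ⟨q.2, Finset.mem_univ _, by rw [← h7]⟩
      calc wtOn S c ≤ (Finset.univ.image (fun i : Fin d => e (Sum.inr (l, i)))).card :=
            Finset.card_le_card h5
        _ ≤ (Finset.univ : Finset (Fin d)).card := Finset.card_image_le
        _ = d := by rw [Finset.card_univ, Fintype.card_fin]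
    have h5 : α * K ≤ α * wt c := mul_le_mul_of_nonneg_left (by exact_mod_cast h3) hα.le
    have h6 : (wtOn S c : ℝ) ≤ d := by exact_mod_cast h4
    linarith

/-- **The answer to Q1 is negative.**  First part: for every `α > 0` and every `d ≥ 1` some binary
linear code with `d` pairwise disjoint hitting sets has no set `S` with
`α wt(c) ≤ wt(c_S) < wt(c)` for all nonzero codewords.  Second part: the negation of Q1. -/
theorem result :
    (∀ α : ℝ, 0 < α → ∀ d : ℕ, 1 ≤ d →
      ∃ n : ℕ, 1 ≤ n ∧ ∃ C : Submodule (ZMod 2) (Fin n → ZMod 2),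
        (∃ S : Fin d → Finset (Fin n), (∀ i j, i ≠ j → Disjoint (S i) (S j)) ∧
          ∀ i, IsHitting C (S i)) ∧
        ¬ ∃ S : Finset (Fin n), ∀ c ∈ C, c ≠ 0 →
          α * (wt c : ℝ) ≤ (wtOn S c : ℝ) ∧ wtOn S c < wt c) ∧
    ¬ (∀ α : ℝ, α < 1 → ∃ d : ℕ, 1 ≤ d ∧
      ∀ n : ℕ, 1 ≤ n → ∀ C : Submodule (ZMod 2) (Fin n → ZMod 2),
        (∃ S : Fin d → Finset (Fin n), (∀ i j, i ≠ j → Disjoint (S i) (S j)) ∧
          ∀ i, IsHitting C (S i)) →
        ∃ S : Finset (Fin n), ∀ c ∈ C, c ≠ 0 →
          α * (wt c : ℝ) ≤ (wtOn S c : ℝ) ∧ wtOn S c < wt c) := by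
  refine ⟨main, fun h => ?_⟩
  obtain ⟨d, hd, h⟩ := h (1 / 2) (by norm_num)
  obtain ⟨n, hn, C, h1, h2⟩ := main (1 / 2) (by norm_num) d hd
  exact h2 (h n hn C h1)

end Pool.Agent.Results.MP_d2d48a_co.NoThinSet
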